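import Pool.Agent.Helper74.RN.St

set_option autoImplicit false

/-!
Project RN, module FNR: the set of rules is finite.
-/

namespace Pool.Agent.Helper34.RN

open Pool.Agent.Helper74 Pool.Agent.Helper74.RN

private def toOpt {n : ℕ} : Ce (Fin n) → Option (Option (Option (Fin n)))
  | .a x => some (some (some x))
  | .b => some (some none)
  | .c => some none
  | .s => none

private theorem fin_ce (n : ℕ) : Finite (Ce (Fin n)) := by
  refine Finite.of_injective (toOpt (n := n)) ?_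
  intro u v h
  cases u <;> cases v <;> simp_all [toOpt]

private def f0 (n : ℕ) : Unit → ContextFreeRule (Ce (Fin n)) Nt :=
  fun _ => ⟨.E 1, [.terminal .s]⟩

private def f1 (n : ℕ) : Ce (Fin n) × Ce (Fin n) → ContextFreeRule (Ce (Fin n)) Nt :=
  fun p => ⟨.E 1, [.terminal p.1, .nonterminal (.E 1), .terminal p.2]⟩

private def f2 (n : ℕ) : Ce (Fin n) → ContextFreeRule (Ce (Fin n)) Nt :=
  fun x => ⟨.E 2, [.terminal x, .nonterminal (.E 1)]⟩

private def f3 (n : ℕ) : Ce (Fin n) → ContextFreeRule (Ce (Fin n)) Nt :=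
  fun y => ⟨.E 0, [.nonterminal (.E 1), .terminal y]⟩

private def f4 (n : ℕ) : Unit → ContextFreeRule (Ce (Fin n)) Nt :=
  fun _ => ⟨.M, [.nonterminal (.E 1)]⟩

private def f5 (n : ℕ) : Ce (Fin n) × Fin 3 × Ce (Fin n) → ContextFreeRule (Ce (Fin n)) Nt :=
  fun p => ⟨.M, [.nonterminal (.E 1), .terminal p.1, .nonterminal (.E p.2.1), .terminal p.2.2,
        .nonterminal .M]⟩

private def f6 (n : ℕ) : Fin n × Fin n × Ce (Fin n) × Ce (Fin n) →
    ContextFreeRule (Ce (Fin n)) Nt :=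
  fun p => ⟨.M, [.nonterminal (.E 1), .terminal (.a p.1), .nonterminal (.E 1),
    .terminal p.2.2.1, .nonterminal .M, .terminal (.a p.2.1), .nonterminal (.E 1),
    .terminal p.2.2.2, .nonterminal .M]⟩

theorem hFNR : Pool.Agent.Helper74.RN.StFNR := by
  intro n R
  have hfin : Finite (Ce (Fin n)) := fin_ce n
  refine Set.Finite.subset ((Set.finite_range (f0 n)).union ((Set.finite_range (f1 n)).union
    ((Set.finite_range (f2 n)).union ((Set.finite_range (f3 n)).union
    ((Set.finite_range (f4 n)).union ((Set.finite_range (f5 n)).union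
    (Set.finite_range (f6 n)))))))) ?_
  intro r hr
  cases hr with
  | e0 => exact Or.inl ⟨(), rfl⟩
  | e1 x y hx hy => exact Or.inr (Or.inl ⟨(x, y), rfl⟩)
  | e2 x hx => exact Or.inr (Or.inr (Or.inl ⟨x, rfl⟩))
  | e3 y hy => exact Or.inr (Or.inr (Or.inr (Or.inl ⟨y, rfl⟩)))
  | m0 => exact Or.inr (Or.inr (Or.inr (Or.inr (Or.inl ⟨(), rfl⟩))))
  | m1 A d f hA hf => exact Or.inr (Or.inr (Or.inr (Or.inr (Or.inr (Or.inl ⟨(A, d, f), rfl⟩)))))
  | m2 x y f f' hR hf hf' =>
    exact Or.inr (Or.inr (Or.inr (Or.inr (Or.inr (Or.inr ⟨(x, y, f, f'), rfl⟩)))))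

end Pool.Agent.Helper34.RN
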